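import Pool.Agent.Y768.SP.Cont

/-!
# A continuum of solvable varieties of commutative alternative nil algebras in characteristic three
-/

set_option autoImplicit false

namespace Pool.Agent.Results.MP_e7684b_al.NilContinuum

universe u

open Pool.Agent.Y768.SP

/-- Over every field of characteristic three there are a finite set `B` of identities, all of whose
models are commutative alternative algebras with `x ^ 3 = 0` and solvable of index three, and a
sequence of identities `f 0, f 1, …` such that, for sets `I, J` of indices, the variety `V I` defined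
by `B` and the `f k` with `k ∈ I` is finitely based if and only if `I` is finite, and `V I ⊆ V J` if
and only if `J ⊆ I`. -/
theorem result (F : Type u) [Field F] [CharP F 3] :
    ∃ (B : Set (Idn F)) (f : ℕ → Idn F), B.Finite ∧
      (∀ (A : Type u) [NonUnitalNonAssocRing A] [Module F A] [IsScalarTower F A A]
        [SMulCommClass F A A], InVariety F B A →
          IsCommutative A ∧ IsAlternative A ∧ (∀ x : A, (x * x) * x = 0) ∧
            SolvableOfIndex F 3 A) ∧
      (∀ I : Set ℕ, FinitelyBased F (B ∪ f '' I) ↔ I.Finite) ∧
      (∀ I J : Set ℕ,
        (∀ (A : Type u) [NonUnitalNonAssocRing A] [Module F A] [IsScalarTower F A A]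
          [SMulCommClass F A A], InVariety F (B ∪ f '' I) A → InVariety F (B ∪ f '' J) A) ↔
        J ⊆ I) := by
  refine ⟨base3 F, fid F, base3_finite, ?_, fb_iff, le_iff⟩
  intro A _ _ _ _ hA
  obtain ⟨h1, h2, -, h3⟩ := base_props (S := base3 F) (fun f hf => Or.inr hf) hA
  exact ⟨h1, h2, sat_nil_iff.1 (hA _ (Or.inl rfl)), h3⟩

end Pool.Agent.Results.MP_e7684b_al.NilContinuum
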